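import Pool.Agent.Helper26.LU.Goals

/-! # Project LU (MP_db6300_gt), packet M2a: averages of matrix monomials -/

namespace Pool.Agent.Helper81.LU

open MeasureTheory Matrix Real Filter Topology Pool.Agent.Helper26.LU

/-- The complex coordinates of the third column. -/
noncomputable def colX (R : M3) : Fin 3 → ℂ := fun k => ((R k 2 : ℝ) : ℂ)

/-- Functions which are polynomials of degree `≤ d` in the third column. -/
def InP (d : ℕ) (f : M3 → ℂ) : Prop :=
  ∃ P : MvPolynomial (Fin 3) ℂ, P.totalDegree ≤ d ∧ ∀ R ∈ SO3, f R = MvPolynomial.eval (colX R) P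

theorem InP.congr {d : ℕ} {f g : M3 → ℂ} (h : InP d f) (hfg : ∀ R ∈ SO3, g R = f R) : InP d g := by
  obtain ⟨P, h1, h2⟩ := h
  exact ⟨P, h1, fun R hR => (hfg R hR).trans (h2 R hR)⟩

theorem InP.mul {d d' : ℕ} {f g : M3 → ℂ} (h : InP d f) (h' : InP d' g) :
    InP (d + d') (fun R => f R * g R) := by
  obtain ⟨P, h1, h2⟩ := h
  obtain ⟨Q, h3, h4⟩ := h'
  refine ⟨P * Q, (MvPolynomial.totalDegree_mul P Q).trans (add_le_add h1 h3), fun R hR => ?_⟩
  simp only [map_mul, h2 R hR, h4 R hR]

theorem InP.const (d : ℕ) (c : ℂ) : InP d (fun _ => c) :=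
  ⟨MvPolynomial.C c, by simp, fun R _ => by simp⟩

theorem InP.smul {d : ℕ} {f : M3 → ℂ} (h : InP d f) (c : ℂ) : InP d (fun R => c * f R) := by
  have := (InP.const 0 c).mul h
  rwa [zero_add] at this

theorem InP.sum {ι : Type} {d : ℕ} (s : Finset ι) (f : ι → M3 → ℂ) (h : ∀ i ∈ s, InP d (f i)) :
    InP d (fun R => ∑ i ∈ s, f i R) := by
  classical
  induction s using Finset.induction_on with
  | empty => simpa using InP.const d 0
  | insert a s ha ih =>
    obtain ⟨P, h1, h2⟩ := h a (Finset.mem_insert_self a s)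
    obtain ⟨Q, h3, h4⟩ := ih fun i hi => h i (Finset.mem_insert_of_mem hi)
    refine ⟨P + Q, (MvPolynomial.totalDegree_add P Q).trans (max_le h1 h3), fun R hR => ?_⟩
    simp only [map_add, Finset.sum_insert ha, h2 R hR, ← h4 R hR]

/-- The basic functions: `U`, `W`, `X`. -/
noncomputable def mm (s p : Fin 3) (R : M3) : ℂ :=
  ![(R p 0 : ℂ) + Complex.I * R p 1, (R p 0 : ℂ) - Complex.I * R p 1, (R p 2 : ℂ)] s

theorem InP_X (p : Fin 3) : InP 1 (mm 2 p) := by
  refine ⟨MvPolynomial.X p, (MvPolynomial.totalDegree_X p).le, fun R _ => ?_⟩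
  simp [mm, colX]

theorem totalDegree_quad (a : Fin 3 → ℂ) (c b : ℂ) (p q : Fin 3) :
    (MvPolynomial.C c + MvPolynomial.C b * (MvPolynomial.X p * MvPolynomial.X q) +
      ∑ r, MvPolynomial.C (a r) * MvPolynomial.X r :
      MvPolynomial (Fin 3) ℂ).totalDegree ≤ 2 := by
  refine (MvPolynomial.totalDegree_add _ _).trans (max_le
    ((MvPolynomial.totalDegree_add _ _).trans (max_le (by simp) ?_)) ?_)
  · refine (MvPolynomial.totalDegree_mul _ _).trans ?_
    rw [MvPolynomial.totalDegree_C, zero_add]
    refine (MvPolynomial.totalDegree_mul _ _).trans ?_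
    rw [MvPolynomial.totalDegree_X, MvPolynomial.totalDegree_X]
  · refine (MvPolynomial.totalDegree_finsetSum _ _).trans ?_
    rw [Finset.sup_le_iff]
    intro r _
    refine (MvPolynomial.totalDegree_mul _ _).trans ?_
    rw [MvPolynomial.totalDegree_C, MvPolynomial.totalDegree_X]
    norm_num

theorem InP_UW (p q : Fin 3) : InP 2 (fun R => mm 0 p R * mm 1 q R) := by
  refine ⟨MvPolynomial.C (if p = q then 1 else 0) + MvPolynomial.C (-1) *
    (MvPolynomial.X p * MvPolynomial.X q) + ∑ r, MvPolynomial.C (-Complex.I *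
      ((crossProduct (Pi.single p 1) (Pi.single q 1) : V) r : ℂ)) * MvPolynomial.X r,
    totalDegree_quad _ _ _ _ _, fun R hR => ?_⟩
  have h1 : (R p 0 : ℂ) * R q 0 + R p 1 * R q 1 + R p 2 * R q 2 = if p = q then 1 else 0 := by
    have h := congrFun (congrFun ((mem_SO3 R).1 hR).1 p) q
    rw [Matrix.mul_apply, Fin.sum_univ_three, Matrix.one_apply] at h
    simp only [Matrix.transpose_apply] at h
    have h' : ((R p 0 * R q 0 + R p 1 * R q 1 + R p 2 * R q 2 : ℝ) : ℂ) =
        ((if p = q then 1 else 0 : ℝ) : ℂ) := by rw [h]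
    push_cast at h'
    split_ifs at h' ⊢ <;> simpa using h'
  have h2 : Rᵀ = R.adjugate := by
    have e1 : R.adjugate * R = 1 := by
      rw [Matrix.adjugate_mul, ((mem_SO3 R).1 hR).2, one_smul]
    calc Rᵀ = (R.adjugate * R) * Rᵀ := by rw [e1, one_mul]
      _ = R.adjugate * (R * Rᵀ) := by rw [Matrix.mul_assoc]
      _ = R.adjugate := by rw [((mem_SO3 R).1 hR).1, mul_one]
  have h3 : (R p 0 : ℂ) * R q 1 - R p 1 * R q 0 =
      ∑ r, ((crossProduct (Pi.single p 1) (Pi.single q 1) : V) r : ℂ) * R r 2 := by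
    have h4 : R p 0 * R q 1 - R p 1 * R q 0 =
        ∑ r, (crossProduct (Pi.single p 1) (Pi.single q 1) : V) r * R r 2 := by
      have a0 : R 0 2 = R 1 0 * R 2 1 - R 1 1 * R 2 0 := by
        have := congrFun (congrFun h2 2) 0
        rw [Matrix.adjugate_fin_three] at this
        simpa using this
      have a1 : R 1 2 = - (R 0 0 * R 2 1) + R 0 1 * R 2 0 := by
        have := congrFun (congrFun h2 2) 1
        rw [Matrix.adjugate_fin_three] at this
        simpa using this
      have a2 : R 2 2 = R 0 0 * R 1 1 - R 0 1 * R 1 0 := by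
        have := congrFun (congrFun h2 2) 2
        rw [Matrix.adjugate_fin_three] at this
        simpa using this
      rw [Fin.sum_univ_three, a0, a1, a2]
      fin_cases p <;> fin_cases q <;> simp [cross_apply] <;> ring
    have := congrArg (fun x : ℝ => (x : ℂ)) h4
    push_cast at this
    exact this
  have h5 : mm 0 p R * mm 1 q R = ((R p 0 : ℂ) * R q 0 + R p 1 * R q 1) -
      Complex.I * ((R p 0 : ℂ) * R q 1 - R p 1 * R q 0) := by
    simp only [mm, Matrix.cons_val_zero, Matrix.cons_val_one]
    have := Complex.I_mul_I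
    linear_combination (-(R p 1 : ℂ) * R q 1) * this
  simp only [map_add, map_mul, map_sum, MvPolynomial.eval_C, MvPolynomial.eval_X, colX]
  rw [h5, h3, ← h1, Finset.mul_sum]
  simp only [neg_mul, Finset.sum_neg_distrib, mul_assoc]
  ring

/-- The weights. -/
def ww : Fin 3 → ℤ := ![-1, 1, 0]

theorem InP_prod {ι : Type} [DecidableEq ι] (s p : ι → Fin 3) : ∀ (k : ℕ) (t : Finset ι),
    t.card = k → ∑ i ∈ t, ww (s i) = 0 → InP k (fun R => ∏ i ∈ t, mm (s i) (p i) R) := by
  intro k
  induction k using Nat.strong_induction_on with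
  | _ k ih =>
    intro t ht hw
    by_cases h2 : ∃ i ∈ t, s i = 2
    · obtain ⟨i, hi, hs⟩ := h2
      have hc : (t.erase i).card = k - 1 := by rw [Finset.card_erase_of_mem hi, ht]
      have hk : 0 < k := by rw [← ht]; exact Finset.card_pos.2 ⟨i, hi⟩
      have hw' : ∑ j ∈ t.erase i, ww (s j) = 0 := by
        have e1 := Finset.add_sum_erase t (fun j => ww (s j)) hi
        simp only [hs] at e1
        have e3 : ww 2 = 0 := rfl
        rw [e3] at e1
        linarith
      have h := (InP_X (p i)).mul (ih (k - 1) (by omega) (t.erase i) hc hw')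
      rw [show 1 + (k - 1) = k by omega] at h
      refine h.congr fun R _ => ?_
      rw [← Finset.mul_prod_erase t _ hi, hs]
    · push Not at h2
      rcases t.eq_empty_or_nonempty with rfl | ⟨i, hi⟩
      · simpa using InP.const k 1
      · have hall : ∀ j ∈ t, s j = 0 ∨ s j = 1 := by
          intro j hj
          have := h2 j hj
          revert this
          generalize s j = x
          fin_cases x <;> simp
        have ha : ∃ a ∈ t, s a = 0 := by
          by_contra hcon
          push Not at hcon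
          have : ∑ j ∈ t, ww (s j) = ∑ j ∈ t, (1 : ℤ) := by
            refine Finset.sum_congr rfl fun j hj => ?_
            rw [(hall j hj).resolve_left (hcon j hj)]
            rfl
          rw [this, Finset.sum_const, nsmul_eq_mul, mul_one] at hw
          have : 0 < t.card := Finset.card_pos.2 ⟨i, hi⟩
          omega
        have hb : ∃ b ∈ t, s b = 1 := by
          by_contra hcon
          push Not at hcon
          have : ∑ j ∈ t, ww (s j) = ∑ j ∈ t, (-1 : ℤ) := by
            refine Finset.sum_congr rfl fun j hj => ?_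
            rw [(hall j hj).resolve_right (hcon j hj)]
            rfl
          rw [this, Finset.sum_const, nsmul_eq_mul, mul_neg, mul_one] at hw
          have : 0 < t.card := Finset.card_pos.2 ⟨i, hi⟩
          omega
        obtain ⟨a, ha, hsa⟩ := ha
        obtain ⟨b, hb, hsb⟩ := hb
        have hab : b ≠ a := by
          rintro rfl
          rw [hsa] at hsb
          exact absurd hsb (by decide)
        have hb' : b ∈ t.erase a := Finset.mem_erase.2 ⟨hab, hb⟩
        have hc : ((t.erase a).erase b).card = k - 2 := by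
          rw [Finset.card_erase_of_mem hb', Finset.card_erase_of_mem ha, ht]
          omega
        have hk : 2 ≤ k := by
          have : 0 < (t.erase a).card := Finset.card_pos.2 ⟨b, hb'⟩
          rw [Finset.card_erase_of_mem ha, ht] at this
          omega
        have hw' : ∑ j ∈ (t.erase a).erase b, ww (s j) = 0 := by
          have e1 := Finset.add_sum_erase t (fun j => ww (s j)) ha
          have e2 := Finset.add_sum_erase (t.erase a) (fun j => ww (s j)) hb'
          simp only [hsa, hsb] at e1 e2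
          have e3 : ww 0 = -1 := rfl
          have e4 : ww 1 = 1 := rfl
          rw [e3] at e1
          rw [e4] at e2
          linarith
        have h := (InP_UW (p a) (p b)).mul (ih (k - 2) (by omega) _ hc hw')
        rw [show 2 + (k - 2) = k by omega] at h
        refine h.congr fun R _ => ?_
        rw [← Finset.mul_prod_erase t _ ha, ← Finset.mul_prod_erase (t.erase a) _ hb', hsa, hsb,
          mul_assoc]

/-- The coefficients. -/
noncomputable def cc : Fin 3 → Fin 3 → ℂ :=
  ![![1 / 2, 1 / 2, 0], ![-Complex.I / 2, Complex.I / 2, 0], ![0, 0, 1]]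

theorem entry (R : M3) (θ : ℝ) (p q : Fin 3) : (((R * Rot θ) p q : ℝ) : ℂ) =
    ∑ s, cc q s * mm s p R * Complex.exp (Complex.I * (ww s * θ)) := by
  have h1 : Complex.exp (Complex.I * θ) = Complex.cos θ + Complex.sin θ * Complex.I := by
    rw [mul_comm, Complex.exp_mul_I]
  have h2 : Complex.exp (-(Complex.I * θ)) = Complex.cos θ - Complex.sin θ * Complex.I := by
    rw [← mul_neg, mul_comm, Complex.exp_mul_I, Complex.cos_neg, Complex.sin_neg]
    ring
  have hI := Complex.I_mul_I
  rw [Matrix.mul_apply, Fin.sum_univ_three, Fin.sum_univ_three]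
  fin_cases q
  · simp [cc, mm, ww, Rot, h1, h2]
    linear_combination ((R p 1 : ℂ) * Complex.sin θ) * hI
  · simp [cc, mm, ww, Rot, h1, h2]
    linear_combination (-(R p 0 : ℂ) * Complex.sin θ + (R p 1 : ℂ) * Complex.cos θ) * hI
  · simp [cc, mm, ww, Rot]

theorem int_exp (k : ℤ) : (∫ x in (0 : ℝ)..2 * π, Complex.exp (Complex.I * (k * x))) =
    if k = 0 then 2 * π else 0 := by
  split_ifs with h
  · subst h
    simp
  · have hk : Complex.I * k ≠ 0 := mul_ne_zero Complex.I_ne_zero (by exact_mod_cast h)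
    have := integral_exp_mul_complex (a := 0) (b := 2 * π) hk
    simp only [mul_assoc] at this
    rw [this]
    have e1 : Complex.exp (Complex.I * (k * ((2 * π : ℝ) : ℂ))) = 1 := by
      rw [Complex.exp_eq_one_iff]
      exact ⟨k, by push_cast; ring⟩
    rw [e1]
    simp

theorem gM2a (hM6 : G_M6) : G_M2a := by
  intro N n hn p q
  have hP : InP n (fun R => ∑ σ : Fin n → Fin 3, if ∑ i, ww (σ i) = 0 then
      (∏ i, cc (q i) (σ i)) * ∏ i, mm (σ i) (p i) R else 0) := by
    refine InP.sum _ _ fun σ _ => ?_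
    by_cases h : ∑ i, ww (σ i) = 0
    · simp only [h, if_true]
      exact (InP_prod σ p n Finset.univ (by simp) h).smul _
    · simp only [h, if_false]
      exact InP.const n 0
  obtain ⟨P, hP1, hP2⟩ := hP
  have hm : ∀ m : Fin 3 →₀ ℕ, ∃ c : Idx N → ℝ, m ∈ P.support → ∀ x ∈ sph,
      x 0 ^ m 0 * x 1 ^ m 1 * x 2 ^ m 2 = ev c x := by
    intro m
    by_cases hms : m ∈ P.support
    · have h1 : m 0 + m 1 + m 2 ≤ N := by
        have := MvPolynomial.le_totalDegree hms
        rw [Finsupp.sum_fintype _ _ (fun _ => rfl), Fin.sum_univ_three] at this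
        omega
      obtain ⟨c, hc⟩ := hM6 N _ _ _ h1
      exact ⟨c, fun _ => hc⟩
    · exact ⟨0, fun h => absurd h hms⟩
  choose cm hcm using hm
  refine ⟨fun t => ∑ m ∈ P.support, (P.coeff m).re * cm m t, fun R hR => ?_⟩
  have hx : R *ᵥ e 0 ∈ sph := mulVec_sph hR (e_sph 0)
  have hcol : ∀ k, (R *ᵥ e 0) k = R k 2 := by
    intro k
    simp [Matrix.mulVec, dotProduct, Fin.sum_univ_three, e]
  have hint : (((∫ x in (0 : ℝ)..2 * π, ∏ i, (R * Rot x) (p i) (q i)) / (2 * π) : ℝ) : ℂ) =
      MvPolynomial.eval (colX R) P := by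
    rw [← hP2 R hR]
    have hexp : ∀ x : ℝ, ((∏ i, (R * Rot x) (p i) (q i) : ℝ) : ℂ) =
        ∑ σ : Fin n → Fin 3, ((∏ i, cc (q i) (σ i)) * ∏ i, mm (σ i) (p i) R) *
          Complex.exp (Complex.I * (((∑ i, ww (σ i) : ℤ) : ℂ) * x)) := by
      intro x
      rw [Complex.ofReal_prod]
      simp only [entry]
      rw [Finset.prod_univ_sum]
      simp only [Fintype.piFinset_univ]
      refine Finset.sum_congr rfl fun σ _ => ?_
      rw [Finset.prod_mul_distrib, Finset.prod_mul_distrib, ← Complex.exp_sum]
      congr 2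
      push_cast
      rw [Finset.sum_mul, Finset.mul_sum]
    have hpi : (π : ℂ) ≠ 0 := by exact_mod_cast Real.pi_ne_zero
    rw [Complex.ofReal_div, ← intervalIntegral.integral_ofReal]
    simp only [hexp]
    rw [intervalIntegral.integral_finsetSum]
    · rw [Finset.sum_div]
      refine Finset.sum_congr rfl fun σ _ => ?_
      rw [intervalIntegral.integral_const_mul, int_exp]
      split_ifs
      · push_cast
        field_simp
      · simp
    · intro σ _
      refine Continuous.intervalIntegrable ?_ _ _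
      fun_prop
  have hre := congrArg Complex.re hint
  rw [Complex.ofReal_re, MvPolynomial.eval_eq', Complex.re_sum] at hre
  rw [hre]
  unfold ev
  simp only [Finset.sum_mul]
  rw [Finset.sum_comm]
  refine Finset.sum_congr rfl fun m hm => ?_
  have e1 : ∏ i, colX R i ^ m i = ((∏ i, R i 2 ^ m i : ℝ) : ℂ) := by
    push_cast
    rfl
  rw [e1, Complex.re_mul_ofReal, Fin.prod_univ_three]
  have h := hcm m hm _ hx
  rw [hcol, hcol, hcol] at h
  rw [h]
  unfold ev
  rw [Finset.mul_sum]
  refine Finset.sum_congr rfl fun t _ => ?_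
  ring

end Pool.Agent.Helper81.LU
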